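import Mathlib
import Pool.Agent.H92.SG.Stmts

/-!
# Block of 7_7: explicit action on four strands
-/

namespace Pool.Agent.H56.SG

open Pool.Agent.H92.SG

theorem dih_s {m : ℕ} (i : ℕ) (a : ℕ → ZMod m) :
    dih (ZMod m) (σ i) a =
      fun j => if j = i then a (i + 1) else if j = i + 1 then 2 * a (i + 1) - a i else a j := by
  unfold dih
  rw [lift_σ]
  rfl

theorem dih_si {m : ℕ} (i : ℕ) (a : ℕ → ZMod m) :
    dih (ZMod m) (σ i)⁻¹ a =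
      fun j => if j = i then 2 * a i - a (i + 1) else if j = i + 1 then a i else a j := by
  unfold dih
  rw [map_inv, lift_σ]
  rfl

/-- Values on the strands 0, 1, 2, 3. -/
structure St {R : Type} {m : ℕ} (a : ℕ → ZMod m) (s : ℕ → V2 R) (c0 c1 c2 c3 : ZMod m)
    (v0 v1 v2 v3 : V2 R) : Prop where
  a0 : a 0 = c0
  a1 : a 1 = c1
  a2 : a 2 = c2
  a3 : a 3 = c3
  s0 : s 0 = v0
  s1 : s 1 = v1
  s2 : s 2 = v2
  s3 : s 3 = v3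

section

variable {R : Type} [CommRing R] {m : ℕ} {t : Rˣ} {e : AddChar (ZMod m) R}
  {a : ℕ → ZMod m} {s : ℕ → V2 R} {c0 c1 c2 c3 : ZMod m} {v0 v1 v2 v3 : V2 R}

theorem st1 (hA : TwA) (h : St a s c0 c1 c2 c3 v0 v1 v2 v3) (d : ZMod m)
    (hd : 2 * c2 - c1 = d) :
    St (dih _ (σ 1) a) (tw t e (σ 1) a s) c0 c2 d c3 v0
      (v2 + v1 - ((t⁻¹ : Rˣ) : R) • Sv e c2 v1) (((t⁻¹ : Rˣ) : R) • Sv e c2 v1) v3 := by
  constructor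
  · rw [dih_s]; simp [ h.a0]
  · rw [dih_s]; simp [ h.a2]
  · rw [dih_s]; simp [ h.a2, h.a1, hd]
  · rw [dih_s]; simp [ h.a3]
  · rw [hA.σ_apply]; simp [ h.s0]
  · rw [hA.σ_apply]; simp [ h.s1, h.s2, h.a2]
  · rw [hA.σ_apply]; simp [ h.s1, h.a2]
  · rw [hA.σ_apply]; simp [ h.s3]

theorem sti2 (hA : TwA) (h : St a s c0 c1 c2 c3 v0 v1 v2 v3) (d : ZMod m)
    (hd : 2 * c2 - c3 = d) :
    St (dih _ (σ 2)⁻¹ a) (tw t e (σ 2)⁻¹ a s) c0 c1 d c2 v0 v1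
      ((t : R) • Sv e c2 v3) (v2 + v3 - (t : R) • Sv e c2 v3) := by
  constructor
  · rw [dih_si]; simp [ h.a0]
  · rw [dih_si]; simp [ h.a1]
  · rw [dih_si]; simp [ h.a2, h.a3, hd]
  · rw [dih_si]; simp [ h.a2]
  · rw [hA.σ_inv_apply]; simp [ h.s0]
  · rw [hA.σ_inv_apply]; simp [ h.s1]
  · rw [hA.σ_inv_apply]; simp [ h.s3, h.a2]
  · rw [hA.σ_inv_apply]; simp [ h.s3, h.s2, h.a2]

theorem sti0 (hA : TwA) (h : St a s c0 c1 c2 c3 v0 v1 v2 v3) (d : ZMod m)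
    (hd : 2 * c0 - c1 = d) :
    St (dih _ (σ 0)⁻¹ a) (tw t e (σ 0)⁻¹ a s) d c0 c2 c3
      ((t : R) • Sv e c0 v1) (v0 + v1 - (t : R) • Sv e c0 v1) v2 v3 := by
  constructor
  · rw [dih_si]; simp [ h.a0, h.a1, hd]
  · rw [dih_si]; simp [ h.a0]
  · rw [dih_si]; simp [ h.a2]
  · rw [dih_si]; simp [ h.a3]
  · rw [hA.σ_inv_apply]; simp [ h.s1, h.a0]
  · rw [hA.σ_inv_apply]; simp [ h.s0, h.s1, h.a0]
  · rw [hA.σ_inv_apply]; simp [ h.s2]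
  · rw [hA.σ_inv_apply]; simp [ h.s3]

end

/-- The explicit action of the block. -/
theorem blk (hA : TwA) {R : Type} [CommRing R] {m : ℕ} (t : Rˣ) (e : AddChar (ZMod m) R)
    (a : ℕ → ZMod m) (c : ZMod m) (h0 : a 0 = 0) (h1 : a 1 = c) (h2 : a 2 = c) (h3 : a 3 = 0)
    (hc : 3 * c = 0) (s : ℕ → V2 R) (T Ti u u' : R) (hT : (t : R) = T)
    (hTi : ((t⁻¹ : Rˣ) : R) = Ti) (hu : e c = u) (hu' : e (-c) = u') :
    ∃ y2 y3 z1 z2 x2 x3 p1 p2 q0 q1 r1 r2 f0 f1 : V2 R,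
      y2 = T • ![u * s 3 1, u' * s 3 0] ∧ y3 = s 2 + s 3 - y2 ∧
      z2 = Ti • ![u' * s 1 1, u * s 1 0] ∧ z1 = y2 + s 1 - z2 ∧
      x2 = T • ![y3 1, y3 0] ∧ x3 = z2 + y3 - x2 ∧
      p2 = Ti • ![u' * z1 1, u * z1 0] ∧ p1 = x2 + z1 - p2 ∧
      q0 = T • ![p1 1, p1 0] ∧ q1 = s 0 + p1 - q0 ∧
      r2 = Ti • ![u' * q1 1, u * q1 0] ∧ r1 = p2 + q1 - r2 ∧
      f0 = T • ![u * r1 1, u' * r1 0] ∧ f1 = q0 + r1 - f0 ∧
      tw t e β77 a s 0 = f0 ∧ tw t e β77 a s 1 = f1 ∧ tw t e β77 a s 2 = r2 ∧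
      tw t e β77 a s 3 = x3 := by
  have e0 : e 0 = 1 := AddChar.map_zero_eq_one e
  have Sc : ∀ v : V2 R, Sv e c v = ![u * v 1, u' * v 0] := by
    intro v; unfold Sv; rw [hu, hu']
  have Sc' : ∀ v : V2 R, Sv e (-c) v = ![u' * v 1, u * v 0] := by
    intro v; unfold Sv; rw [neg_neg, hu, hu']
  have S0 : ∀ v : V2 R, Sv e 0 v = ![v 1, v 0] := by
    intro v; unfold Sv; rw [neg_zero, e0, one_mul, one_mul]
  have k0 : St a s 0 c c 0 (s 0) (s 1) (s 2) (s 3) := ⟨h0, h1, h2, h3, rfl, rfl, rfl, rfl⟩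
  have k1 := sti2 (t := t) (e := e) hA k0 (-c) (by linear_combination hc)
  have k2 := st1 (t := t) (e := e) hA k1 0 (by linear_combination -hc)
  have k3 := sti2 (t := t) (e := e) hA k2 (-c) (by ring)
  have k4 := st1 (t := t) (e := e) hA k3 (-c) (by ring)
  have k5 := sti0 (t := t) (e := e) hA k4 c (by ring)
  have k6 := st1 (t := t) (e := e) hA k5 c (by linear_combination -hc)
  have k7 := sti0 (t := t) (e := e) hA k6 0 (by linear_combination hc)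
  have hE : tw t e β77 a s = tw t e (σ 0)⁻¹ (dih _ (σ 1) (dih _ (σ 0)⁻¹ (dih _ (σ 1)
      (dih _ (σ 2)⁻¹ (dih _ (σ 1) (dih _ (σ 2)⁻¹ a)))))) (tw t e (σ 1) (dih _ (σ 0)⁻¹ (dih _ (σ 1)
      (dih _ (σ 2)⁻¹ (dih _ (σ 1) (dih _ (σ 2)⁻¹ a))))) (tw t e (σ 0)⁻¹ (dih _ (σ 1)
      (dih _ (σ 2)⁻¹ (dih _ (σ 1) (dih _ (σ 2)⁻¹ a)))) (tw t e (σ 1)
      (dih _ (σ 2)⁻¹ (dih _ (σ 1) (dih _ (σ 2)⁻¹ a))) (tw t e (σ 2)⁻¹ (dih _ (σ 1)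
      (dih _ (σ 2)⁻¹ a)) (tw t e (σ 1) (dih _ (σ 2)⁻¹ a) (tw t e (σ 2)⁻¹ a s)))))) := by
    unfold β77
    simp only [hA.mul]
  have g0 := k7.s0
  have g1 := k7.s1
  have g2 := k7.s2
  have g3 := k7.s3
  rw [← hE] at g0 g1 g2 g3
  simp only [Sc, Sc', S0, hT, hTi] at g0 g1 g2 g3
  refine ⟨_, _, _, _, _, _, _, _, _, _, _, _, _, _, rfl, rfl, rfl, rfl, rfl, rfl, rfl, rfl,
    rfl, rfl, rfl, rfl, rfl, rfl, ?_, ?_, ?_, ?_⟩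
  · exact g0
  · exact g1
  · exact g2
  · exact g3

end Pool.Agent.H56.SG
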