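import Mathlib
import Pool.Agent.H56.SG.KL1a

/-!
# Kernel of the block of 7_7 at a primitive cube root of unity
-/

namespace Pool.Agent.H56.SG

open Pool.Agent.H92.SG

set_option linter.unusedSimpArgs false

theorem om3_quad : om3 ^ 2 + om3 + 1 = 0 := by
  have h3 := om3_cube
  have h1 : om3 ≠ 1 := by
    intro h
    unfold om3 at h
    rw [Complex.exp_eq_one_iff] at h
    obtain ⟨n, hn⟩ := h
    have hpi : (2 * Real.pi * Complex.I : ℂ) ≠ 0 := by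
      simp [Real.pi_ne_zero]
    have h2 : ((n : ℂ)) * 3 = 1 := by
      have h4 : (2 * Real.pi * Complex.I : ℂ) * ((n : ℂ) * 3) =
          (2 * Real.pi * Complex.I : ℂ) * 1 := by
        linear_combination (-3 : ℂ) * hn
      exact mul_left_cancel₀ hpi h4
    have h5 : n * 3 = 1 := by exact_mod_cast h2
    omega
  have h6 : (om3 - 1) * (om3 ^ 2 + om3 + 1) = 0 := by linear_combination h3
  rcases mul_eq_zero.mp h6 with h7 | h7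
  · exact absurd (sub_eq_zero.mp h7) h1
  · exact h7

theorem tC_inv : ((tC⁻¹ : ℂˣ) : ℂ) = om3 ^ 2 := by
  have h : (tC : ℂ) = om3 := rfl
  have h1 : (tC : ℂ) * ((tC⁻¹ : ℂˣ) : ℂ) = 1 := Units.mul_inv tC
  rw [h] at h1
  have h3 := om3_cube
  have h4 : om3 * ((tC⁻¹ : ℂˣ) : ℂ) = om3 * om3 ^ 2 := by rw [h1]; linear_combination -h3
  exact mul_left_cancel₀ om3_ne h4

theorem eC_val (k z : ℕ) : eC k ((3 ^ k * z : ℕ) : ZMod (3 ^ (k + 1))) = om3 ^ z := by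
  unfold eC
  have h := ZMod.stdAddChar_coe (N := 3 ^ (k + 1)) ((3 ^ k * z : ℕ) : ℤ)
  rw [Int.cast_natCast] at h
  rw [h]
  unfold om3
  rw [← Complex.exp_nat_mul]
  congr 1
  push_cast
  have h3 : (3 : ℂ) ^ k ≠ 0 := pow_ne_zero _ (by norm_num)
  field_simp
  ring

theorem three_c (k z : ℕ) : 3 * ((3 ^ k * z : ℕ) : ZMod (3 ^ (k + 1))) = 0 := by
  have h : ((3 ^ (k + 1) * z : ℕ) : ZMod (3 ^ (k + 1))) = 0 := by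
    rw [ZMod.natCast_eq_zero_iff]
    exact Dvd.intro z rfl
  rw [← h]
  push_cast
  ring

theorem cst4 {R : Type} [CommRing R] {m : ℕ} (t : Rˣ) (e : AddChar (ZMod m) R)
    (a : ℕ → ZMod m) (v : V2 R) :
    cst t e 4 a v 3 = v - Gm t e (a 3) v ∧
    cst t e 4 a v 2 = Gm t e (a 3) v - Gm t e (a 2) (Gm t e (a 3) v) ∧
    cst t e 4 a v 1 = Gm t e (a 2) (Gm t e (a 3) v) -
      Gm t e (a 1) (Gm t e (a 2) (Gm t e (a 3) v)) ∧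
    cst t e 4 a v 0 = Gm t e (a 1) (Gm t e (a 2) (Gm t e (a 3) v)) -
      Gm t e (a 0) (Gm t e (a 1) (Gm t e (a 2) (Gm t e (a 3) v))) := by
  refine ⟨?_, ?_, ?_, ?_⟩ <;> simp [cst, uu]

theorem Gm_app {R : Type} [CommRing R] {m : ℕ} (t : Rˣ) (e : AddChar (ZMod m) R)
    (a : ZMod m) (v : V2 R) :
    Gm t e a v = ![(t : R) * (e a * v 1), (t : R) * (e (-a) * v 0)] := rfl


theorem alg0 (w : ℂ) (hw : w ^ 2 + w + 1 = 0) (s0 s1 s2 s3 : V2 ℂ)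
    (y2 y3 z1 z2 x2 x3 p1 p2 q0 q1 r1 r2 f0 f1 : V2 ℂ)
    (h1 : y2 = w • ![1 * s3 1, 1 * s3 0]) (h2 : y3 = s2 + s3 - y2)
    (h3 : z2 = w ^ 2 • ![1 * s1 1, 1 * s1 0]) (h4 : z1 = y2 + s1 - z2)
    (h5 : x2 = w • ![y3 1, y3 0]) (h6 : x3 = z2 + y3 - x2)
    (h7 : p2 = w ^ 2 • ![1 * z1 1, 1 * z1 0]) (h8 : p1 = x2 + z1 - p2)
    (h9 : q0 = w • ![p1 1, p1 0]) (h10 : q1 = s0 + p1 - q0)
    (h11 : r2 = w ^ 2 • ![1 * q1 1, 1 * q1 0]) (h12 : r1 = p2 + q1 - r2)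
    (h13 : f0 = w • ![1 * r1 1, 1 * r1 0]) (h14 : f1 = q0 + r1 - f0)
    (k0 : f0 = s0) (k1 : f1 = s1) (k2 : r2 = s2) (k3 : x3 = s3) :
    ∃ (v : V2 ℂ) (r : ℂ) (g3 g2 g1 g0 : V2 ℂ), g3 = ![w * v 1, w * v 0] ∧
      g2 = ![w * (1 * g3 1), w * (1 * g3 0)] ∧
      g1 = ![w * (1 * g2 1), w * (1 * g2 0)] ∧
      g0 = ![w * g1 1, w * g1 0] ∧
      r = 0 ∧ s3 = v - g3 ∧ s2 = g3 - g2 ∧ s1 = g2 - g1 ∧ s0 = g1 - g0 := by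
  have H0 := congrFun k0 0
  have H1 := congrFun k0 1
  have H2 := congrFun k1 0
  have H3 := congrFun k1 1
  have H4 := congrFun k2 0
  have H5 := congrFun k2 1
  have H6 := congrFun k3 0
  have H7 := congrFun k3 1
  clear k0 k1 k2 k3
  subst h14 h13 h12 h11 h10 h9 h8 h7 h6 h5 h4 h3 h2 h1
  simp only [Pi.smul_apply, Pi.sub_apply, Pi.add_apply, smul_eq_mul, Matrix.cons_val_zero,
    Matrix.cons_val_one] at H0 H1 H2 H3 H4 H5 H6 H7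
  refine ⟨![(1 - w) / 3 * (s3 0 + w * s3 1), (1 - w) / 3 * (s3 1 + w * s3 0)], 0, _, _, _, _, rfl, rfl, rfl, rfl, rfl, ?_, ?_, ?_, ?_⟩
  · funext p
    fin_cases p
    · simp only [Fin.zero_eta, Fin.mk_one, Fin.isValue, Pi.smul_apply, Pi.sub_apply, Pi.add_apply,
        smul_eq_mul, Matrix.cons_val_zero, Matrix.cons_val_one]
      linear_combination (((2/3) * w ^ 0 + (-1/3) * w ^ 1) * (s3 0)) * hw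
    · simp only [Fin.zero_eta, Fin.mk_one, Fin.isValue, Pi.smul_apply, Pi.sub_apply, Pi.add_apply,
        smul_eq_mul, Matrix.cons_val_zero, Matrix.cons_val_one]
      linear_combination (((2/3) * w ^ 0 + (-1/3) * w ^ 1) * (s3 1)) * hw
  · funext p
    fin_cases p
    · simp only [Fin.zero_eta, Fin.mk_one, Fin.isValue, Pi.smul_apply, Pi.sub_apply, Pi.add_apply,
        smul_eq_mul, Matrix.cons_val_zero, Matrix.cons_val_one]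
      linear_combination ((-17/39) + (2/39) * w) * H0 + ((-4/39) + (-11/39) * w) * H1 + ((-4/13) + (7/39) * w) * H2 + ((-4/13) + (-19/39) * w) * H3 + ((-28/39) + (2/39) * w) * H4 + ((-2/39) + (-11/39) * w) * H5 + (((-5/39) * w ^ 0 + (-8/39) * w ^ 1 + (-5/39) * w ^ 2) * (s0 0) + ((8/39) * w ^ 0 + (5/39) * w ^ 1 + (8/39) * w ^ 2) * (s0 1) + ((-8/39) * w ^ 1 + (-9/13) * w ^ 2 + (-23/39) * w ^ 3 + (-7/13) * w ^ 4 + (-2/3) * w ^ 5 + (-10/39) * w ^ 6 + (-8/39) * w ^ 7) * (s1 0) + ((5/39) * w ^ 1 + (4/13) * w ^ 2 + (29/39) * w ^ 3 + (6/13) * w ^ 4 + (2/3) * w ^ 5 + (16/39) * w ^ 6 + (5/39) * w ^ 7) * (s1 1) + ((11/39) * w ^ 0 + (1/13) * w ^ 1 + (10/39) * w ^ 2 + (16/39) * w ^ 3 + (5/39) * w ^ 4) * (s2 0) + ((-2/39) * w ^ 0 + (1/13) * w ^ 1 + (-16/39) * w ^ 2 + (-10/39) * w ^ 3 + (-8/39) * w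 ^ 4) * (s2 1) + ((8/13) * w ^ 1 + (4/13) * w ^ 2 + (37/39) * w ^ 3 + (12/13) * w ^ 4 + (6/13) * w ^ 5 + (8/39) * w ^ 6) * (s3 0) + ((11/39) * w ^ 1 + (-40/39) * w ^ 2 + (-28/39) * w ^ 3 + (-14/13) * w ^ 4 + (-7/13) * w ^ 5 + (-5/39) * w ^ 6) * (s3 1)) * hw
    · simp only [Fin.zero_eta, Fin.mk_one, Fin.isValue, Pi.smul_apply, Pi.sub_apply, Pi.add_apply,
        smul_eq_mul, Matrix.cons_val_zero, Matrix.cons_val_one]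
      linear_combination ((-4/39) + (-11/39) * w) * H0 + ((-17/39) + (2/39) * w) * H1 + ((-4/13) + (-19/39) * w) * H2 + ((-4/13) + (7/39) * w) * H3 + ((-2/39) + (-11/39) * w) * H4 + ((-28/39) + (2/39) * w) * H5 + (((8/39) * w ^ 0 + (5/39) * w ^ 1 + (8/39) * w ^ 2) * (s0 0) + ((-5/39) * w ^ 0 + (-8/39) * w ^ 1 + (-5/39) * w ^ 2) * (s0 1) + ((5/39) * w ^ 1 + (4/13) * w ^ 2 + (29/39) * w ^ 3 + (6/13) * w ^ 4 + (2/3) * w ^ 5 + (16/39) * w ^ 6 + (5/39) * w ^ 7) * (s1 0) + ((-8/39) * w ^ 1 + (-9/13) * w ^ 2 + (-23/39) * w ^ 3 + (-7/13) * w ^ 4 + (-2/3) * w ^ 5 + (-10/39) * w ^ 6 + (-8/39) * w ^ 7) * (s1 1) + ((-2/39) * w ^ 0 + (1/13) * w ^ 1 + (-16/39) * w ^ 2 + (-10/39) * w ^ 3 + (-8/39) * w ^ 4) * (s2 0) + ((11/39) * w ^ 0 + (1/13) * w ^ 1 + (10/39) * w ^ 2 + (16/39) * w ^ 3 + (5/39) * w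 ^ 4) * (s2 1) + ((11/39) * w ^ 1 + (-40/39) * w ^ 2 + (-28/39) * w ^ 3 + (-14/13) * w ^ 4 + (-7/13) * w ^ 5 + (-5/39) * w ^ 6) * (s3 0) + ((8/13) * w ^ 1 + (4/13) * w ^ 2 + (37/39) * w ^ 3 + (12/13) * w ^ 4 + (6/13) * w ^ 5 + (8/39) * w ^ 6) * (s3 1)) * hw
  · funext p
    fin_cases p
    · simp only [Fin.zero_eta, Fin.mk_one, Fin.isValue, Pi.smul_apply, Pi.sub_apply, Pi.add_apply,
        smul_eq_mul, Matrix.cons_val_zero, Matrix.cons_val_one]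
      linear_combination ((8/39) + (10/39) * w) * H0 + ((-5/39) + (-16/39) * w) * H1 + (0 + (5/39) * w) * H2 + (0 + (-8/39) * w) * H3 + ((19/39) + (19/39) * w) * H4 + ((-7/39) + (-7/39) * w) * H5 + (((8/39) * w ^ 0 + (2/39) * w ^ 1 + (5/39) * w ^ 2) * (s0 0) + ((-5/39) * w ^ 0 + (-11/39) * w ^ 1 + (-8/39) * w ^ 2) * (s0 1) + (1 * w ^ 0 + (-34/39) * w ^ 1 + (6/13) * w ^ 2 + (47/39) * w ^ 3 + (4/13) * w ^ 4 + (17/39) * w ^ 5 + (16/39) * w ^ 6 + (8/39) * w ^ 7) * (s1 0) + ((-8/39) * w ^ 1 + (-7/13) * w ^ 2 + (-5/39) * w ^ 3 + (-9/13) * w ^ 4 + (-35/39) * w ^ 5 + (-10/39) * w ^ 6 + (-5/39) * w ^ 7) * (s1 1) + ((19/39) * w ^ 0 + (-19/39) * w ^ 2 + (-10/39) * w ^ 3 + (-5/39) * w ^ 4) * (s2 0) + ((-7/39) * w ^ 0 + (7/39) * w ^ 2 + (16/39) * w ^ 3 + (8/39) * w ^ 4) * (s2 1) + ((-1/3) * w ^ 2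 + (-32/39) * w ^ 3 + (-11/13) * w ^ 4 + (-8/13) * w ^ 5 + (-8/39) * w ^ 6) * (s3 0) + ((46/39) * w ^ 3 + (15/13) * w ^ 4 + (5/13) * w ^ 5 + (5/39) * w ^ 6) * (s3 1)) * hw
    · simp only [Fin.zero_eta, Fin.mk_one, Fin.isValue, Pi.smul_apply, Pi.sub_apply, Pi.add_apply,
        smul_eq_mul, Matrix.cons_val_zero, Matrix.cons_val_one]
      linear_combination ((-5/39) + (-16/39) * w) * H0 + ((8/39) + (10/39) * w) * H1 + (0 + (-8/39) * w) * H2 + (0 + (5/39) * w) * H3 + ((-7/39) + (-7/39) * w) * H4 + ((19/39) + (19/39) * w) * H5 + (((-5/39) * w ^ 0 + (-11/39) * w ^ 1 + (-8/39) * w ^ 2) * (s0 0) + ((8/39) * w ^ 0 + (2/39) * w ^ 1 + (5/39) * w ^ 2) * (s0 1) + ((-8/39) * w ^ 1 + (-7/13) * w ^ 2 + (-5/39) * w ^ 3 + (-9/13) * w ^ 4 + (-35/39) * w ^ 5 + (-10/39) * w ^ 6 + (-5/39) * w ^ 7) * (s1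 0) + (1 * w ^ 0 + (-34/39) * w ^ 1 + (6/13) * w ^ 2 + (47/39) * w ^ 3 + (4/13) * w ^ 4 + (17/39) * w ^ 5 + (16/39) * w ^ 6 + (8/39) * w ^ 7) * (s1 1) + ((-7/39) * w ^ 0 + (7/39) * w ^ 2 + (16/39) * w ^ 3 + (8/39) * w ^ 4) * (s2 0) + ((19/39) * w ^ 0 + (-19/39) * w ^ 2 + (-10/39) * w ^ 3 + (-5/39) * w ^ 4) * (s2 1) + ((46/39) * w ^ 3 + (15/13) * w ^ 4 + (5/13) * w ^ 5 + (5/39) * w ^ 6) * (s3 0) + ((-1/3) * w ^ 2 + (-32/39) * w ^ 3 + (-11/13) * w ^ 4 + (-8/13) * w ^ 5 + (-8/39) * w ^ 6) * (s3 1)) * hw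
  · funext p
    fin_cases p
    · simp only [Fin.zero_eta, Fin.mk_one, Fin.isValue, Pi.smul_apply, Pi.sub_apply, Pi.add_apply,
        smul_eq_mul, Matrix.cons_val_zero, Matrix.cons_val_one]
      linear_combination ((-4/13) + (5/13) * w) * H0 + ((-4/13) + (5/13) * w) * H1 + ((8/39) + (10/39) * w) * H2 + ((-5/39) + (23/39) * w) * H3 + ((-1/39) + (-8/39) * w) * H4 + ((-14/39) + (5/39) * w) * H5 + (((19/39) * w ^ 0 + (-7/39) * w ^ 1 + (5/39) * w ^ 2) * (s0 0) + ((-7/39) * w ^ 0 + (19/39) * w ^ 1 + (-8/39) * w ^ 2) * (s0 1) + ((7/39) * w ^ 1 + (-5/13) * w ^ 2 + (5/39) * w ^ 3 + (5/39) * w ^ 4 + (10/39) * w ^ 5 + (-14/39) * w ^ 6 + (8/39) * w ^ 7) * (s1 0) + ((20/39) * w ^ 1 + (-5/13) * w ^ 2 + (-8/39) * w ^ 3 + (31/39) * w ^ 4 + (-16/39) * w ^ 5 + (-1/39) * w ^ 6 + (-5/39) * w ^ 7) * (s1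 1) + ((-1/39) * w ^ 0 + (-2/39) * w ^ 1 + (-1/39) * w ^ 3 + (-5/39) * w ^ 4) * (s2 0) + ((-14/39) * w ^ 0 + (11/39) * w ^ 1 + (-14/39) * w ^ 3 + (8/39) * w ^ 4) * (s2 1) + ((10/39) * w ^ 1 + (-8/39) * w ^ 2 + (-5/39) * w ^ 3 + (4/39) * w ^ 4 + (2/13) * w ^ 5 + (-8/39) * w ^ 6) * (s3 0) + ((-16/39) * w ^ 1 + (5/39) * w ^ 2 + (-5/39) * w ^ 3 + (4/39) * w ^ 4 + (2/13) * w ^ 5 + (5/39) * w ^ 6) * (s3 1)) * hw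
    · simp only [Fin.zero_eta, Fin.mk_one, Fin.isValue, Pi.smul_apply, Pi.sub_apply, Pi.add_apply,
        smul_eq_mul, Matrix.cons_val_zero, Matrix.cons_val_one]
      linear_combination ((-4/13) + (5/13) * w) * H0 + ((-4/13) + (5/13) * w) * H1 + ((-5/39) + (23/39) * w) * H2 + ((8/39) + (10/39) * w) * H3 + ((-14/39) + (5/39) * w) * H4 + ((-1/39) + (-8/39) * w) * H5 + (((-7/39) * w ^ 0 + (19/39) * w ^ 1 + (-8/39) * w ^ 2) * (s0 0) + ((19/39) * w ^ 0 + (-7/39) * w ^ 1 + (5/39) * w ^ 2) * (s0 1) + ((20/39) * w ^ 1 + (-5/13) * w ^ 2 + (-8/39) * w ^ 3 + (31/39) * w ^ 4 + (-16/39) * w ^ 5 + (-1/39) * w ^ 6 + (-5/39) * w ^ 7) * (s1 0) + ((7/39) * w ^ 1 + (-5/13) * w ^ 2 + (5/39) * w ^ 3 + (5/39) * w ^ 4 + (10/39) * w ^ 5 + (-14/39) * w ^ 6 + (8/39) * w ^ 7) * (s1 1) + ((-14/39) * w ^ 0 + (11/39)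 * w ^ 1 + (-14/39) * w ^ 3 + (8/39) * w ^ 4) * (s2 0) + ((-1/39) * w ^ 0 + (-2/39) * w ^ 1 + (-1/39) * w ^ 3 + (-5/39) * w ^ 4) * (s2 1) + ((-16/39) * w ^ 1 + (5/39) * w ^ 2 + (-5/39) * w ^ 3 + (4/39) * w ^ 4 + (2/13) * w ^ 5 + (5/39) * w ^ 6) * (s3 0) + ((10/39) * w ^ 1 + (-8/39) * w ^ 2 + (-5/39) * w ^ 3 + (4/39) * w ^ 4 + (2/13) * w ^ 5 + (-8/39) * w ^ 6) * (s3 1)) * hw

theorem alg1 (w : ℂ) (hw : w ^ 2 + w + 1 = 0) (s0 s1 s2 s3 : V2 ℂ)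
    (y2 y3 z1 z2 x2 x3 p1 p2 q0 q1 r1 r2 f0 f1 : V2 ℂ)
    (h1 : y2 = w • ![w * s3 1, w ^ 2 * s3 0]) (h2 : y3 = s2 + s3 - y2)
    (h3 : z2 = w ^ 2 • ![w ^ 2 * s1 1, w * s1 0]) (h4 : z1 = y2 + s1 - z2)
    (h5 : x2 = w • ![y3 1, y3 0]) (h6 : x3 = z2 + y3 - x2)
    (h7 : p2 = w ^ 2 • ![w ^ 2 * z1 1, w * z1 0]) (h8 : p1 = x2 + z1 - p2)
    (h9 : q0 = w • ![p1 1, p1 0]) (h10 : q1 = s0 + p1 - q0)
    (h11 : r2 = w ^ 2 • ![w ^ 2 * q1 1, w * q1 0]) (h12 : r1 = p2 + q1 - r2)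
    (h13 : f0 = w • ![w * r1 1, w ^ 2 * r1 0]) (h14 : f1 = q0 + r1 - f0)
    (k0 : f0 = s0) (k1 : f1 = s1) (k2 : r2 = s2) (k3 : x3 = s3) :
    ∃ (v : V2 ℂ) (r : ℂ) (g3 g2 g1 g0 : V2 ℂ), g3 = ![w * v 1, w * v 0] ∧
      g2 = ![w * (w * g3 1), w * (w ^ 2 * g3 0)] ∧
      g1 = ![w * (w * g2 1), w * (w ^ 2 * g2 0)] ∧
      g0 = ![w * g1 1, w * g1 0] ∧
      s3 = v - g3 ∧ s2 = g3 - g2 + r • ![2 * w, 1] ∧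
      s1 = g2 - g1 + r • ![-2 * w - 3, -1] ∧
      s0 = g1 - g0 + r • ![2 * w + 1, -2 * w - 1] := by
  have H0 := congrFun k0 0
  have H1 := congrFun k0 1
  have H2 := congrFun k1 0
  have H3 := congrFun k1 1
  have H4 := congrFun k2 0
  have H5 := congrFun k2 1
  have H6 := congrFun k3 0
  have H7 := congrFun k3 1
  clear k0 k1 k2 k3
  subst h14 h13 h12 h11 h10 h9 h8 h7 h6 h5 h4 h3 h2 h1
  simp only [Pi.smul_apply, Pi.sub_apply, Pi.add_apply, smul_eq_mul, Matrix.cons_val_zero,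
    Matrix.cons_val_one] at H0 H1 H2 H3 H4 H5 H6 H7
  refine ⟨![(1 - w) / 3 * (s3 0 + w * s3 1), (1 - w) / 3 * (s3 1 + w * s3 0)], s2 1 - (w * ((1 - w) / 3 * (s3 0 + w * s3 1)) - w * (w ^ 2 * (w * ((1 - w) / 3 * (s3 1 + w * s3 0))))), _, _, _, _, rfl, rfl, rfl, rfl, ?_, ?_, ?_, ?_⟩
  · funext p
    fin_cases p
    · simp only [Fin.zero_eta, Fin.mk_one, Fin.isValue, Pi.smul_apply, Pi.sub_apply, Pi.add_apply,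
        smul_eq_mul, Matrix.cons_val_zero, Matrix.cons_val_one]
      linear_combination (((2/3) * w ^ 0 + (-1/3) * w ^ 1) * (s3 0)) * hw
    · simp only [Fin.zero_eta, Fin.mk_one, Fin.isValue, Pi.smul_apply, Pi.sub_apply, Pi.add_apply,
        smul_eq_mul, Matrix.cons_val_zero, Matrix.cons_val_one]
      linear_combination (((2/3) * w ^ 0 + (-1/3) * w ^ 1) * (s3 1)) * hw
  · funext p
    fin_cases p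
    · simp only [Fin.zero_eta, Fin.mk_one, Fin.isValue, Pi.smul_apply, Pi.sub_apply, Pi.add_apply,
        smul_eq_mul, Matrix.cons_val_zero, Matrix.cons_val_one]
      linear_combination ((-3) + (-1) * w) * H0 + ((-1) + 3 * w) * H1 + ((-5) + (-2) * w) * H2 + ((-1) + 2 * w) * H3 + ((-3) + (-2) * w) * H4 + ((2 * w ^ 0 + (-1) * w ^ 1 + (-1) * w ^ 2 + 1 * w ^ 3 + 1 * w ^ 4) * (s0 0) + (1 * w ^ 1 + (-3) * w ^ 2 + 1 * w ^ 3 + (-1) * w ^ 5 + 1 * w ^ 6) * (s0 1) + (4 * w ^ 4 + 2 * w ^ 5 + (-4) * w ^ 6 + 4 * w ^ 7 + 2 * w ^ 8 + (-3) * w ^ 9 + 4 * w ^ 10 + 1 * w ^ 13 + (-1) * w ^ 14) * (s1 0) + ((-2) * w ^ 2 + 1 * w ^ 3 + (-5) * w ^ 4 + 1 * w ^ 5 + 2 * w ^ 6 + (-6) * w ^ 7 + (-2) * w ^ 9 + 1 * w ^ 11 + (-2) * w ^ 12 + 1 * w ^ 13) * (s1 1) + ((-2) * w ^ 0 + 1 * w ^ 1 + (-1) * w ^ 2 + (-2) * w ^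 3 + 2 * w ^ 4 + (-1) * w ^ 5 + (-2) * w ^ 6 + 1 * w ^ 7) * (s2 0) + (3 * w ^ 1 + (-1) * w ^ 2 + (-2) * w ^ 3 + 4 * w ^ 4 + 1 * w ^ 7 + (-1) * w ^ 8) * (s2 1) + (1 * w ^ 1 + (-8/3) * w ^ 2 + (2/3) * w ^ 3 + (-19/3) * w ^ 4 + (2/3) * w ^ 5 + 3 * w ^ 6 + (-7) * w ^ 7 + 2 * w ^ 9 + (-5) * w ^ 10 + 1 * w ^ 11 + (-1) * w ^ 13 + 1 * w ^ 14) * (s3 0) + ((14/3) * w ^ 1 + (8/3) * w ^ 2 + (-17/3) * w ^ 3 + (17/3) * w ^ 4 + 4 * w ^ 5 + (-2) * w ^ 6 + 4 * w ^ 7 + (-1) * w ^ 9 + 2 * w ^ 10 + (-1) * w ^ 11) * (s3 1)) * hw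
    · simp only [Fin.zero_eta, Fin.mk_one, Fin.isValue, Pi.smul_apply, Pi.sub_apply, Pi.add_apply,
        smul_eq_mul, Matrix.cons_val_zero, Matrix.cons_val_one]
      linear_combination (0) * hw
  · funext p
    fin_cases p
    · simp only [Fin.zero_eta, Fin.mk_one, Fin.isValue, Pi.smul_apply, Pi.sub_apply, Pi.add_apply,
        smul_eq_mul, Matrix.cons_val_zero, Matrix.cons_val_one]
      linear_combination (0 + (-4) * w) * H0 + ((-6) + (-5) * w) * H1 + (1 + (-6) * w) * H2 + ((-4) + (-4) * w) * H3 + (2 + (-2) * w) * H4 + (((-1) * w ^ 0 + 3 * w ^ 1 + (-2) * w ^ 2 + (-3) * w ^ 3 + 2 * w ^ 4) * (s0 0) + ((-2) * w ^ 0 + 1 * w ^ 1 + 2 * w ^ 2 + (-5) * w ^ 3 + 2 * w ^ 4 + (-1) * w ^ 5 + (-1) * w ^ 6) * (s0 1) + (1 * w ^ 0 + (-1) * w ^ 1 + (-6) * w ^ 3 + 1 * w ^ 4 + 4 * w ^ 5 + 3 * w ^ 6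 + (-9) * w ^ 7 + 10 * w ^ 8 + (-2) * w ^ 9 + (-5) * w ^ 10 + 7 * w ^ 11 + (-2) * w ^ 12 + 1 * w ^ 13 + 1 * w ^ 14) * (s1 0) + (1 * w ^ 2 + (-3) * w ^ 3 + 4 * w ^ 4 + (-8) * w ^ 5 + 5 * w ^ 6 + 7 * w ^ 7 + (-10) * w ^ 8 + 3 * w ^ 9 + (-5) * w ^ 10 + 3 * w ^ 11 + (-3) * w ^ 12 + (-1) * w ^ 13) * (s1 1) + (2 * w ^ 0 + 2 * w ^ 2 + (-1) * w ^ 3 + (-3) * w ^ 4 + 5 * w ^ 5 + (-3) * w ^ 6 + (-1) * w ^ 7) * (s2 0) + (3 * w ^ 0 + (-2) * w ^ 1 + 5 * w ^ 2 + (-3) * w ^ 3 + (-5) * w ^ 4 + 7 * w ^ 5 + (-2) * w ^ 6 + 1 * w ^ 7 + 1 * w ^ 8) * (s2 1) + (3 * w ^ 1 + (4/3) * w ^ 2 + 1 * w ^ 3 + 1 * w ^ 4 + (-5) * w ^ 5 + (2/3) * w ^ 6 + 9 * w ^ 7 + (-14) * w ^ 8 + 5 * w ^ 9 + 4 * w ^ 10 + (-8) * w ^ 11 + 2 * w ^ 12 + (-1) * w ^ 13 + (-1) * w ^ 14) * (s3 0) + ((-1) * w ^ 1 + 5 * w ^ 2 + (-5/3) * w ^ 3 +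 (-9) * w ^ 4 + (17/3) * w ^ 5 + 4 * w ^ 6 + (-5) * w ^ 7 + 8 * w ^ 8 + (-3) * w ^ 9 + 3 * w ^ 10 + 1 * w ^ 11) * (s3 1)) * hw
    · simp only [Fin.zero_eta, Fin.mk_one, Fin.isValue, Pi.smul_apply, Pi.sub_apply, Pi.add_apply,
        smul_eq_mul, Matrix.cons_val_zero, Matrix.cons_val_one]
      linear_combination ((-1) + (-2) * w) * H0 + ((-4) + (-1) * w) * H1 + ((-2) + (-4) * w) * H2 + ((-3) + (-1) * w) * H3 + (0 + (-2) * w) * H4 + ((1 * w ^ 0 + 1 * w ^ 1 + (-2) * w ^ 2 + (-1) * w ^ 3 + 2 * w ^ 4) * (s0 0) + ((-1) * w ^ 0 + 1 * w ^ 1 + (-1) * w ^ 2 + (-2) * w ^ 3 + 1 * w ^ 4 + (-1) * w ^ 5) * (s0 1) + ((-4) * w ^ 3 + 4 * w ^ 4 + 4 * w ^ 5 + (-2) * w ^ 6 + (-2) * w ^ 7 + 7 * w ^ 8 + (-3) * w ^ 9 + 4 * w ^ 11 + (-1) * w ^ 12 + 1 * w ^ 13) * (s1 0) + (1 * w ^ 0 + (-1) * w ^ 1 + (-1) * w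 ^ 2 + (-1) * w ^ 4 + (-4) * w ^ 5 + 4 * w ^ 6 + (-6) * w ^ 8 + (-2) * w ^ 10 + 2 * w ^ 11 + (-3) * w ^ 12) * (s1 1) + (1 * w ^ 1 + (-2) * w ^ 3 + 2 * w ^ 5 + (-3) * w ^ 6) * (s2 0) + (1 * w ^ 0 + 1 * w ^ 1 + 2 * w ^ 2 + (-3) * w ^ 3 + 4 * w ^ 5 + (-1) * w ^ 6 + 1 * w ^ 7) * (s2 1) + ((8/3) * w ^ 1 + (-4/3) * w ^ 2 + (2/3) * w ^ 3 + (-7/3) * w ^ 4 + (-10/3) * w ^ 5 + 3 * w ^ 6 + (-8) * w ^ 8 + 4 * w ^ 9 + (-1) * w ^ 10 + (-4) * w ^ 11 + 1 * w ^ 12 + (-1) * w ^ 13) * (s3 0) + (2 * w ^ 1 + (11/3) * w ^ 2 + (-13/3) * w ^ 3 + (-4/3) * w ^ 4 + (20/3) * w ^ 5 + (2/3) * w ^ 6 + 4 * w ^ 8 + (-2) * w ^ 9 + 3 * w ^ 10) * (s3 1)) * hw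
  · funext p
    fin_cases p
    · simp only [Fin.zero_eta, Fin.mk_one, Fin.isValue, Pi.smul_apply, Pi.sub_apply, Pi.add_apply,
        smul_eq_mul, Matrix.cons_val_zero, Matrix.cons_val_one]
      linear_combination ((-4) + 1 * w) * H0 + (3 + 5 * w) * H1 + ((-5) + 1 * w) * H2 + (1 + 3 * w) * H3 + ((-3) + 0 * w) * H4 + ((2 * w ^ 0 + (-2) * w ^ 1 + 1 * w ^ 3) * (s0 0) + (2 * w ^ 0 + (-3) * w ^ 2 + 3 * w ^ 3 + (-2) * w ^ 4 + 2 * w ^ 6) * (s0 1) + (1 * w ^ 3 + 3 * w ^ 4 + (-4) * w ^ 6 + 6 * w ^ 7 + (-4) * w ^ 8 + (-2) * w ^ 9 + 4 * w ^ 10 + (-3) * w ^ 11 + 2 * w ^ 12 + (-2) * w ^ 14) * (s1 0) + ((-1) * w ^ 2 + 1 * w ^ 3 + (-6) * w ^ 4 + 6 * w ^ 5 + (-1) * w ^ 6 + (-5) * w ^ 7 + 4 * w ^ 8 + (-5) * w ^ 9 + 3 * w ^ 10 + 1 * w ^ 11 + 2 * w ^ 13) * (s1 1) + ((-3) * w ^ 0 + 2 * w ^ 1 + (-2) *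 w ^ 2 + (-1) * w ^ 3 + 3 * w ^ 4 + (-3) * w ^ 5 + 2 * w ^ 7) * (s2 0) + ((-1) * w ^ 0 + 4 * w ^ 1 + (-4) * w ^ 2 + 4 * w ^ 4 + (-3) * w ^ 5 + 2 * w ^ 6 + (-2) * w ^ 8) * (s2 1) + ((-2/3) * w ^ 1 + (-2) * w ^ 2 + (-6) * w ^ 4 + (14/3) * w ^ 5 + 1 * w ^ 6 + (-7) * w ^ 7 + 7 * w ^ 8 + (-2) * w ^ 9 + (-4) * w ^ 10 + 5 * w ^ 11 + (-2) * w ^ 12 + 2 * w ^ 14) * (s3 0) + (5 * w ^ 1 + (-2/3) * w ^ 2 + (-4) * w ^ 3 + (20/3) * w ^ 4 + (-1) * w ^ 5 + (-4/3) * w ^ 6 + (17/3) * w ^ 7 + (-5) * w ^ 8 + (-1) * w ^ 9 + (-2) * w ^ 11) * (s3 1)) * hw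
    · simp only [Fin.zero_eta, Fin.mk_one, Fin.isValue, Pi.smul_apply, Pi.sub_apply, Pi.add_apply,
        smul_eq_mul, Matrix.cons_val_zero, Matrix.cons_val_one]
      linear_combination (2 + 0 * w) * H0 + ((-2) + (-4) * w) * H1 + (4 + 0 * w) * H2 + ((-1) + (-3) * w) * H3 + (2 + 1 * w) * H4 + (((-2) * w ^ 0 + 2 * w ^ 1 + (-2) * w ^ 3) * (s0 0) + ((-1) * w ^ 1 + 3 * w ^ 2 + (-2) * w ^ 3 + 1 * w ^ 4 + (-1) * w ^ 6) * (s0 1) + ((-3) * w ^ 3 + (-2) * w ^ 4 + (-1) * w ^ 5 + 4 * w ^ 6 + (-7) * w ^ 7 + 2 * w ^ 8 + 2 * w ^ 9 + (-5) * w ^ 10 + 2 * w ^ 11 + (-1) * w ^ 12 + 1 * w ^ 14) * (s1 0) + (2 * w ^ 2 + (-2) * w ^ 3 + 6 * w ^ 4 + (-3) * w ^ 5 + (-1) * w ^ 6 + 8 * w ^ 7 + (-3) * w ^ 8 + 3 * w ^ 9 + (-2) * w ^ 10 + 1 * w ^ 11 + (-1) * w ^ 13) * (s1 1) + (2 * w ^ 0 + 1 * w ^ 2 + 1 * w ^ 3 +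 (-2) * w ^ 4 + 3 * w ^ 5 + (-1) * w ^ 7) * (s2 0) + (1 * w ^ 0 + (-3) * w ^ 1 + 2 * w ^ 2 + 1 * w ^ 3 + (-5) * w ^ 4 + 2 * w ^ 5 + (-1) * w ^ 6 + 1 * w ^ 8) * (s2 1) + ((2/3) * w ^ 1 + 2 * w ^ 2 + 1 * w ^ 3 + 4 * w ^ 4 + (-2/3) * w ^ 5 + (-7/3) * w ^ 6 + (26/3) * w ^ 7 + (-4) * w ^ 8 + 5 * w ^ 10 + (-3) * w ^ 11 + 1 * w ^ 12 + (-1) * w ^ 14) * (s3 0) + ((-4) * w ^ 1 + (-1/3) * w ^ 2 + 3 * w ^ 3 + (-20/3) * w ^ 4 + (-2) * w ^ 5 + 2 * w ^ 6 + (-5) * w ^ 7 + 3 * w ^ 8 + (-1) * w ^ 9 + 1 * w ^ 11) * (s3 1)) * hw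

theorem alg2 (w : ℂ) (hw : w ^ 2 + w + 1 = 0) (s0 s1 s2 s3 : V2 ℂ)
    (y2 y3 z1 z2 x2 x3 p1 p2 q0 q1 r1 r2 f0 f1 : V2 ℂ)
    (h1 : y2 = w • ![w ^ 2 * s3 1, w * s3 0]) (h2 : y3 = s2 + s3 - y2)
    (h3 : z2 = w ^ 2 • ![w * s1 1, w ^ 2 * s1 0]) (h4 : z1 = y2 + s1 - z2)
    (h5 : x2 = w • ![y3 1, y3 0]) (h6 : x3 = z2 + y3 - x2)
    (h7 : p2 = w ^ 2 • ![w * z1 1, w ^ 2 * z1 0]) (h8 : p1 = x2 + z1 - p2)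
    (h9 : q0 = w • ![p1 1, p1 0]) (h10 : q1 = s0 + p1 - q0)
    (h11 : r2 = w ^ 2 • ![w * q1 1, w ^ 2 * q1 0]) (h12 : r1 = p2 + q1 - r2)
    (h13 : f0 = w • ![w ^ 2 * r1 1, w * r1 0]) (h14 : f1 = q0 + r1 - f0)
    (k0 : f0 = s0) (k1 : f1 = s1) (k2 : r2 = s2) (k3 : x3 = s3) :
    ∃ (v : V2 ℂ) (r : ℂ) (g3 g2 g1 g0 : V2 ℂ), g3 = ![w * v 1, w * v 0] ∧
      g2 = ![w * (w ^ 2 * g3 1), w * (w * g3 0)] ∧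
      g1 = ![w * (w ^ 2 * g2 1), w * (w * g2 0)] ∧
      g0 = ![w * g1 1, w * g1 0] ∧
      s3 = v - g3 ∧ s2 = g3 - g2 + r • ![-w - 1, 2] ∧
      s1 = g2 - g1 + r • ![w + 1, 3 * w + 1] ∧
      s0 = g1 - g0 + r • ![w - 1, 1 - w] := by
  have H0 := congrFun k0 0
  have H1 := congrFun k0 1
  have H2 := congrFun k1 0
  have H3 := congrFun k1 1
  have H4 := congrFun k2 0
  have H5 := congrFun k2 1
  have H6 := congrFun k3 0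
  have H7 := congrFun k3 1
  clear k0 k1 k2 k3
  subst h14 h13 h12 h11 h10 h9 h8 h7 h6 h5 h4 h3 h2 h1
  simp only [Pi.smul_apply, Pi.sub_apply, Pi.add_apply, smul_eq_mul, Matrix.cons_val_zero,
    Matrix.cons_val_one] at H0 H1 H2 H3 H4 H5 H6 H7
  refine ⟨![(1 - w) / 3 * (s3 0 + w * s3 1), (1 - w) / 3 * (s3 1 + w * s3 0)], (s2 1 - (w * ((1 - w) / 3 * (s3 0 + w * s3 1)) - w * (w * (w * ((1 - w) / 3 * (s3 1 + w * s3 0)))))) / 2, _, _, _, _, rfl, rfl, rfl, rfl, ?_, ?_, ?_, ?_⟩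
  · funext p
    fin_cases p
    · simp only [Fin.zero_eta, Fin.mk_one, Fin.isValue, Pi.smul_apply, Pi.sub_apply, Pi.add_apply,
        smul_eq_mul, Matrix.cons_val_zero, Matrix.cons_val_one]
      linear_combination (((2/3) * w ^ 0 + (-1/3) * w ^ 1) * (s3 0)) * hw
    · simp only [Fin.zero_eta, Fin.mk_one, Fin.isValue, Pi.smul_apply, Pi.sub_apply, Pi.add_apply,
        smul_eq_mul, Matrix.cons_val_zero, Matrix.cons_val_one]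
      linear_combination (((2/3) * w ^ 0 + (-1/3) * w ^ 1) * (s3 1)) * hw
  · funext p
    fin_cases p
    · simp only [Fin.zero_eta, Fin.mk_one, Fin.isValue, Pi.smul_apply, Pi.sub_apply, Pi.add_apply,
        smul_eq_mul, Matrix.cons_val_zero, Matrix.cons_val_one]
      linear_combination ((1/2) + 0 * w) * H0 + (1 + 1 * w) * H1 + (0 + (1/2) * w) * H2 + (1 + (3/2) * w) * H3 + ((-1) + (1/2) * w) * H4 + (((1/2) * w ^ 0 + (-1) * w ^ 1 + (1/2) * w ^ 2 + 1 * w ^ 3 + (-1/2) * w ^ 4 + 1 * w ^ 5 + (-1/2) * w ^ 6) * (s0 0) + ((-1/2) * w ^ 1 + (1/2) * w ^ 2 + (1/2) * w ^ 3 + (-1/2) * w ^ 4) * (s0 1) + ((1/2) * w ^ 3 + 1 * w ^ 4 + 1 * w ^ 5 + (-2) * w ^ 6 + (1/2) * w ^ 7 + (3/2) * w ^ 8 + (5/2) * w ^ 10 + (-2) * w ^ 11 + (3/2) * w ^ 12 + (-1/2) * w ^ 13) * (s1 0) + ((1/2) * w ^ 3 + (-3/2) * w ^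 5 + (-1) * w ^ 6 + (3/2) * w ^ 7 + (-3) * w ^ 8 + 2 * w ^ 9 + (-3/2) * w ^ 11 + (1/2) * w ^ 12 + (-1) * w ^ 13 + (1/2) * w ^ 14) * (s1 1) + ((-1/2) * w ^ 1 + (-1) * w ^ 2 + (3/2) * w ^ 3 + (-3/2) * w ^ 5 + (1/2) * w ^ 6 + (-1) * w ^ 7 + (1/2) * w ^ 8) * (s2 0) + ((1/2) * w ^ 0 + (-1) * w ^ 2 + 1 * w ^ 3 + (1/2) * w ^ 4 + (-1) * w ^ 5 + (3/2) * w ^ 6 + (-1/2) * w ^ 7) * (s2 1) + ((-7/6) * w ^ 1 + (-5/3) * w ^ 2 + (11/6) * w ^ 3 + (4/3) * w ^ 4 + (-3) * w ^ 5 + (-1/2) * w ^ 7 + (-5/2) * w ^ 8 + 2 * w ^ 9 + (-3/2) * w ^ 10 + (1/2) * w ^ 11) * (s3 0) + ((-1/3) * w ^ 1 + (1/2) * w ^ 3 + (2/3) * w ^ 4 + 1 * w ^ 5 + (-1/2) * w ^ 6 + (-1/2) * w ^ 7 + 3 * w ^ 8 + (-2) * w ^ 9 + 1 * w ^ 10 + 1 * w ^ 11 + (-1/2) * w ^ 12 + 1 * w ^ 13 + (-1/2) * w ^ 14) * (s3 1)) * hw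
    · simp only [Fin.zero_eta, Fin.mk_one, Fin.isValue, Pi.smul_apply, Pi.sub_apply, Pi.add_apply,
        smul_eq_mul, Matrix.cons_val_zero, Matrix.cons_val_one]
      linear_combination (0) * hw
  · funext p
    fin_cases p
    · simp only [Fin.zero_eta, Fin.mk_one, Fin.isValue, Pi.smul_apply, Pi.sub_apply, Pi.add_apply,
        smul_eq_mul, Matrix.cons_val_zero, Matrix.cons_val_one]
      linear_combination ((-1/2) + 1 * w) * H0 + (0 + 1 * w) * H1 + ((-1) + (1/2) * w) * H2 + ((-1) + (1/2) * w) * H3 + ((-1) + (-1/2) * w) * H4 + (((1/2) * w ^ 0 + (-3/2) * w ^ 2 + 1 * w ^ 3 + (-1/2) * w ^ 4 + (1/2) * w ^ 6) * (s0 0) + (1 * w ^ 0 + (-1/2) * w ^ 1 + (-1/2) * w ^ 2 + (1/2) * w ^ 3 + (1/2) * w ^ 4) * (s0 1) + (1 * w ^ 0 + (-1) * w ^ 1 + (-1) * w ^ 2 + (3/2) * w ^ 3 + (-2) * w ^ 4 + 1 * w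 ^ 5 + (-5/2) * w ^ 7 + (1/2) * w ^ 8 + (-2) * w ^ 9 + (3/2) * w ^ 10 + (-1/2) * w ^ 12 + (1/2) * w ^ 13) * (s1 0) + ((-1/2) * w ^ 3 + 2 * w ^ 4 + (3/2) * w ^ 5 + (-3) * w ^ 6 + (5/2) * w ^ 7 + (-1) * w ^ 9 + 2 * w ^ 10 + (-1/2) * w ^ 11 + (1/2) * w ^ 12 + (-1/2) * w ^ 14) * (s1 1) + ((-1) * w ^ 0 + (3/2) * w ^ 1 + (-1) * w ^ 2 + (-1/2) * w ^ 3 + 2 * w ^ 4 + (-1/2) * w ^ 5 + (1/2) * w ^ 6 + (-1/2) * w ^ 8) * (s2 0) + ((-1/2) * w ^ 0 + 1 * w ^ 1 + (-1) * w ^ 2 + (-1) * w ^ 3 + (3/2) * w ^ 4 + (-1) * w ^ 5 + (-1/2) * w ^ 6 + (1/2) * w ^ 7) * (s2 1) + ((7/6) * w ^ 1 + (-2/3) * w ^ 2 + (-13/6) * w ^ 3 + (10/3) * w ^ 4 + (5/3) * w ^ 5 + (-4/3) * w ^ 6 + (5/2) * w ^ 7 + (-3/2) * w ^ 8 + (1/2) * w ^ 10 + (-1/2) * w ^ 11) * (s3 0) + (1 * w ^ 1 + (-4/3) * w ^ 2 + (1/6) * w ^ 3 + (-1) * w ^ 4 +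 (-1/3) * w ^ 5 + (3/2) * w ^ 6 + (-7/2) * w ^ 7 + 1 * w ^ 8 + (-2) * w ^ 10 + 1 * w ^ 11 + (-1/2) * w ^ 12 + (1/2) * w ^ 14) * (s3 1)) * hw
    · simp only [Fin.zero_eta, Fin.mk_one, Fin.isValue, Pi.smul_apply, Pi.sub_apply, Pi.add_apply,
        smul_eq_mul, Matrix.cons_val_zero, Matrix.cons_val_one]
      linear_combination ((-3/2) + 0 * w) * H0 + ((-1) + (-1) * w) * H1 + ((-1) + (-1/2) * w) * H2 + ((-1) + (-3/2) * w) * H3 + (0 + (-1/2) * w) * H4 + (((-1/2) * w ^ 0 + 1 * w ^ 1 + (-1/2) * w ^ 2 + (-1) * w ^ 3 + (1/2) * w ^ 4 + (-1) * w ^ 5 + (1/2) * w ^ 6) * (s0 0) + ((1/2) * w ^ 1 + (-1/2) * w ^ 2 + (-1/2) * w ^ 3 + (1/2) * w ^ 4) * (s0 1) + ((-1/2) * w ^ 3 + (-1) * w ^ 4 + (-1) * w ^ 5 + 2 * w ^ 6 + (-1/2) * w ^ 7 + (-3/2) * w ^ 8 + (-5/2) * w ^ 10 + 2 * w ^ 11 + (-3/2) * w ^ 12 +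 (1/2) * w ^ 13) * (s1 0) + (1 * w ^ 0 + (-1) * w ^ 1 + (-1/2) * w ^ 3 + (3/2) * w ^ 5 + 1 * w ^ 6 + (-3/2) * w ^ 7 + 3 * w ^ 8 + (-2) * w ^ 9 + (3/2) * w ^ 11 + (-1/2) * w ^ 12 + 1 * w ^ 13 + (-1/2) * w ^ 14) * (s1 1) + ((1/2) * w ^ 1 + 1 * w ^ 2 + (-3/2) * w ^ 3 + (3/2) * w ^ 5 + (-1/2) * w ^ 6 + 1 * w ^ 7 + (-1/2) * w ^ 8) * (s2 0) + ((-1/2) * w ^ 0 + 1 * w ^ 2 + (-1) * w ^ 3 + (-1/2) * w ^ 4 + 1 * w ^ 5 + (-3/2) * w ^ 6 + (1/2) * w ^ 7) * (s2 1) + ((7/6) * w ^ 1 + (5/3) * w ^ 2 + (-17/6) * w ^ 3 + (-1/3) * w ^ 4 + (8/3) * w ^ 5 + (1/2) * w ^ 7 + (5/2) * w ^ 8 + (-2) * w ^ 9 + (3/2) * w ^ 10 + (-1/2) * w ^ 11) * (s3 0) + (1 * w ^ 1 + (-1/3) * w ^ 2 + (1/6) * w ^ 3 + (-4/3) * w ^ 4 + (-1/3) * w ^ 5 + (1/6) * w ^ 6 + (1/2) * w ^ 7 + (-3) * w ^ 8 + 2 * w ^ 9 + (-1) * w ^ 10 + (-1) * w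 ^ 11 + (1/2) * w ^ 12 + (-1) * w ^ 13 + (1/2) * w ^ 14) * (s3 1)) * hw
  · funext p
    fin_cases p
    · simp only [Fin.zero_eta, Fin.mk_one, Fin.isValue, Pi.smul_apply, Pi.sub_apply, Pi.add_apply,
        smul_eq_mul, Matrix.cons_val_zero, Matrix.cons_val_one]
      linear_combination ((-5/2) + (-2) * w) * H0 + (0 + (-1) * w) * H1 + ((-1) + (-3/2) * w) * H2 + (1 + (-3/2) * w) * H3 + (1 + (1/2) * w) * H4 + (((-1/2) * w ^ 0 + (3/2) * w ^ 2 + (-2) * w ^ 3 + (3/2) * w ^ 4 + (-1) * w ^ 5 + (-1/2) * w ^ 6) * (s0 0) + ((-1) * w ^ 0 + (3/2) * w ^ 1 + (-1/2) * w ^ 2 + (-3/2) * w ^ 3 + (1/2) * w ^ 4) * (s0 1) + (1 * w ^ 2 + (-3/2) * w ^ 3 + 3 * w ^ 4 + (-3) * w ^ 5 + 1 * w ^ 6 + (9/2) * w ^ 7 + (-7/2) * w ^ 8 + 3 * w ^ 9 + (-7/2) * w ^ 10 + 2 * w ^ 11 + (-3/2) * w ^ 12 + (-1/2) * w ^ 13) * (s1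 0) + ((-5/2) * w ^ 3 + (-1/2) * w ^ 5 + 3 * w ^ 6 + (-11/2) * w ^ 7 + 4 * w ^ 8 + (-3) * w ^ 10 + (5/2) * w ^ 11 + (-3/2) * w ^ 12 + 1 * w ^ 13 + (1/2) * w ^ 14) * (s1 1) + (1 * w ^ 0 + (-3/2) * w ^ 1 + 2 * w ^ 2 + (-1/2) * w ^ 3 + (-3) * w ^ 4 + (5/2) * w ^ 5 + (-3/2) * w ^ 6 + 1 * w ^ 7 + (1/2) * w ^ 8) * (s2 0) + ((1/2) * w ^ 0 + 1 * w ^ 2 + (-3/2) * w ^ 4 + 3 * w ^ 5 + (-3/2) * w ^ 6 + (-1/2) * w ^ 7) * (s2 1) + ((-7/6) * w ^ 1 + 2 * w ^ 2 + (-1/2) * w ^ 3 + (-13/3) * w ^ 4 + 1 * w ^ 5 + 1 * w ^ 6 + (-7/2) * w ^ 7 + (9/2) * w ^ 8 + (-2) * w ^ 9 + (3/2) * w ^ 10 + (1/2) * w ^ 11) * (s3 0) + (1 * w ^ 1 + (1/3) * w ^ 2 + (7/6) * w ^ 3 + (-5/6) * w ^ 6 + (31/6) * w ^ 7 + (-5) * w ^ 8 + 2 * w ^ 9 + 2 * w ^ 10 + (-3) * w ^ 11 + (3/2) * w ^ 12 + (-1) * w ^ 13 + (-1/2) * w ^ 14) * (s3 1))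 * hw
    · simp only [Fin.zero_eta, Fin.mk_one, Fin.isValue, Pi.smul_apply, Pi.sub_apply, Pi.add_apply,
        smul_eq_mul, Matrix.cons_val_zero, Matrix.cons_val_one]
      linear_combination ((1/2) + 0 * w) * H0 + ((-2) + (-1) * w) * H1 + (0 + (-1/2) * w) * H2 + ((-1) + (-3/2) * w) * H3 + (1 + (1/2) * w) * H4 + (((1/2) * w ^ 0 + (1/2) * w ^ 2 + (-1) * w ^ 3 + (-1/2) * w ^ 4 + (1/2) * w ^ 6) * (s0 0) + ((1/2) * w ^ 1 + (-1/2) * w ^ 2 + (-3/2) * w ^ 3 + (1/2) * w ^ 4) * (s0 1) + (1 * w ^ 2 + (-3/2) * w ^ 3 + 1 * w ^ 6 + (7/2) * w ^ 7 + (-5/2) * w ^ 8 + (-1) * w ^ 9 + (-1/2) * w ^ 10 + 2 * w ^ 11 + (-1/2) * w ^ 12 + (1/2) * w ^ 13) * (s1 0) + ((-5/2) * w ^ 3 + 1 * w ^ 4 + (1/2) * w ^ 5 + 1 * w ^ 6 + (-5/2) * w ^ 7 + 1 * w ^ 8 + (-1) * w ^ 9 + (-2) * w ^ 10 + (3/2) * w ^ 11 + (1/2) * w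 ^ 12 + (-1/2) * w ^ 14) * (s1 1) + (1 * w ^ 0 + (1/2) * w ^ 1 + (-1/2) * w ^ 3 + (-2) * w ^ 4 + (3/2) * w ^ 5 + (1/2) * w ^ 6 + (-1/2) * w ^ 8) * (s2 0) + ((-1/2) * w ^ 0 + 1 * w ^ 1 + (-1/2) * w ^ 4 + 1 * w ^ 5 + (-1/2) * w ^ 6 + (1/2) * w ^ 7) * (s2 1) + ((7/6) * w ^ 1 + 1 * w ^ 2 + (-1/2) * w ^ 3 + (-11/3) * w ^ 4 + (8/3) * w ^ 6 + (-5/6) * w ^ 7 + (1/2) * w ^ 8 + (-2) * w ^ 9 + (1/2) * w ^ 10 + (-1/2) * w ^ 11) * (s3 0) + ((2/3) * w ^ 2 + (-1/6) * w ^ 3 + (-1) * w ^ 4 + 1 * w ^ 5 + (-1/2) * w ^ 6 + (7/2) * w ^ 7 + (-2) * w ^ 8 + 2 * w ^ 10 + (-1) * w ^ 11 + (-1/2) * w ^ 12 + (1/2) * w ^ 14) * (s3 1)) * hw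

theorem eC_neg (k : ℕ) (c : ZMod (3 ^ (k + 1))) (u u' : ℂ) (h : eC k c = u) (hu : u * u' = 1) :
    eC k (-c) = u' := by
  have h1 : eC k c * eC k (-c) = 1 := by
    rw [← AddChar.map_add_eq_mul, add_neg_cancel, AddChar.map_zero_eq_one]
  rw [h] at h1
  have h2 : u ≠ 0 := by rintro rfl; simp at hu
  exact mul_left_cancel₀ h2 (h1.trans hu.symm)

theorem cst_val (k : ℕ) (a : ℕ → ZMod (3 ^ (k + 1))) (c : ZMod (3 ^ (k + 1)))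
    (a0 : a 0 = 0) (a1 : a 1 = c) (a2 : a 2 = c) (a3 : a 3 = 0) (u u' : ℂ)
    (hu : eC k c = u) (hu' : eC k (-c) = u') (v g3 g2 g1 g0 : V2 ℂ)
    (e3 : g3 = ![om3 * v 1, om3 * v 0]) (e2 : g2 = ![om3 * (u * g3 1), om3 * (u' * g3 0)])
    (e1 : g1 = ![om3 * (u * g2 1), om3 * (u' * g2 0)]) (e0 : g0 = ![om3 * g1 1, om3 * g1 0]) :
    cst tC (eC k) 4 a v 3 = v - g3 ∧ cst tC (eC k) 4 a v 2 = g3 - g2 ∧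
    cst tC (eC k) 4 a v 1 = g2 - g1 ∧ cst tC (eC k) 4 a v 0 = g1 - g0 := by
  obtain ⟨h3, h2, h1, h0⟩ := cst4 tC (eC k) a v
  have ez : eC k 0 = 1 := AddChar.map_zero_eq_one _
  have f3 : Gm tC (eC k) (a 3) v = g3 := by
    rw [Gm_app, a3, neg_zero, ez, one_mul, one_mul, e3]; rfl
  have f2 : Gm tC (eC k) (a 2) g3 = g2 := by
    rw [Gm_app, a2, hu, hu', e2]; rfl
  have f1 : Gm tC (eC k) (a 1) g2 = g1 := by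
    rw [Gm_app, a1, hu, hu', e1]; rfl
  have f0 : Gm tC (eC k) (a 0) g1 = g0 := by
    rw [Gm_app, a0, neg_zero, ez, one_mul, one_mul, e0]; rfl
  rw [f3] at h3
  rw [f3, f2] at h2
  rw [f3, f2, f1] at h1
  rw [f3, f2, f1, f0] at h0
  exact ⟨h3, h2, h1, h0⟩

theorem KL1_thm (hA : TwA) : KL1Stmt := by
  intro k z hz a hP s hs
  obtain ⟨hP0, hP1⟩ := hP
  have a0 : a 0 = 0 := hP0 0 (by norm_num)
  have a3 : a 3 = 0 := hP0 1 le_rfl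
  have a1 : a 1 = ((3 ^ k * z : ℕ) : ZMod (3 ^ (k + 1))) := (hP1 0 (by norm_num)).1
  have a2 : a 2 = ((3 ^ k * z : ℕ) : ZMod (3 ^ (k + 1))) := (hP1 0 (by norm_num)).2
  have hc := three_c k z
  have he := eC_val k z
  have hw := om3_quad
  have hw3 := om3_cube
  have s0 := hs 0 (by norm_num)
  have s1 := hs 1 (by norm_num)
  have s2 := hs 2 (by norm_num)
  have s3 := hs 3 (by norm_num)
  generalize hcc : ((3 ^ k * z : ℕ) : ZMod (3 ^ (k + 1))) = c at a1 a2 hc he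
  interval_cases z
  · have hu : eC k c = 1 := by rw [he, pow_zero]
    have hu' := eC_neg k c 1 1 hu (by norm_num)
    obtain ⟨y2, y3, z1, z2, x2, x3, p1, p2, q0, q1, r1, r2, f0, f1, h1, h2, h3, h4, h5, h6, h7,
      h8, h9, h10, h11, h12, h13, h14, k0, k1, k2, k3⟩ :=
      blk hA tC (eC k) a c a0 a1 a2 a3 hc s om3 (om3 ^ 2) 1 1 rfl tC_inv hu hu'
    obtain ⟨v, r, g3, g2, g1, g0, e3, e2, e1, e0, hr, t3, t2, t1, t0⟩ := alg0 om3 hw (s 0) (s 1)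
      (s 2) (s 3) y2 y3 z1 z2 x2 x3 p1 p2 q0 q1 r1 r2 f0 f1 h1 h2 h3 h4 h5 h6 h7 h8 h9 h10 h11 h12
      h13 h14 (k0.symm.trans s0) (k1.symm.trans s1) (k2.symm.trans s2) (k3.symm.trans s3)
    obtain ⟨c3, c2, c1, c0⟩ := cst_val k a c a0 a1 a2 a3 1 1 hu hu' v g3 g2 g1 g0 e3 e2 e1 e0
    refine ⟨v, r, fun _ => hr, ?_⟩
    intro i hi
    interval_cases i
    · rw [c0, hr, zero_smul, add_zero]; exact t0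
    · rw [c1, hr, zero_smul, add_zero]; exact t1
    · rw [c2, hr, zero_smul, add_zero]; exact t2
    · rw [c3, hr, zero_smul, add_zero]; exact t3
  · have hu : eC k c = om3 := by rw [he, pow_one]
    have hu' := eC_neg k c om3 (om3 ^ 2) hu (by linear_combination hw3)
    obtain ⟨y2, y3, z1, z2, x2, x3, p1, p2, q0, q1, r1, r2, f0, f1, h1, h2, h3, h4, h5, h6, h7,
      h8, h9, h10, h11, h12, h13, h14, k0, k1, k2, k3⟩ :=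
      blk hA tC (eC k) a c a0 a1 a2 a3 hc s om3 (om3 ^ 2) om3 (om3 ^ 2) rfl tC_inv hu hu'
    obtain ⟨v, r, g3, g2, g1, g0, e3, e2, e1, e0, t3, t2, t1, t0⟩ := alg1 om3 hw (s 0) (s 1)
      (s 2) (s 3) y2 y3 z1 z2 x2 x3 p1 p2 q0 q1 r1 r2 f0 f1 h1 h2 h3 h4 h5 h6 h7 h8 h9 h10 h11 h12
      h13 h14 (k0.symm.trans s0) (k1.symm.trans s1) (k2.symm.trans s2) (k3.symm.trans s3)
    obtain ⟨c3, c2, c1, c0⟩ := cst_val k a c a0 a1 a2 a3 om3 (om3 ^ 2) hu hu' v g3 g2 g1 g0 e3 e2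
      e1 e0
    refine ⟨v, r, fun h => absurd h (by norm_num), ?_⟩
    intro i hi
    interval_cases i
    · rw [c0]; exact t0
    · rw [c1]; exact t1
    · rw [c2]; exact t2
    · rw [c3]
      have : v0 1 3 = 0 := rfl
      rw [this, smul_zero, add_zero]; exact t3
  · have hu : eC k c = om3 ^ 2 := by rw [he]
    have hu' := eC_neg k c (om3 ^ 2) om3 hu (by linear_combination hw3)
    obtain ⟨y2, y3, z1, z2, x2, x3, p1, p2, q0, q1, r1, r2, f0, f1, h1, h2, h3, h4, h5, h6, h7,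
      h8, h9, h10, h11, h12, h13, h14, k0, k1, k2, k3⟩ :=
      blk hA tC (eC k) a c a0 a1 a2 a3 hc s om3 (om3 ^ 2) (om3 ^ 2) om3 rfl tC_inv hu hu'
    obtain ⟨v, r, g3, g2, g1, g0, e3, e2, e1, e0, t3, t2, t1, t0⟩ := alg2 om3 hw (s 0) (s 1)
      (s 2) (s 3) y2 y3 z1 z2 x2 x3 p1 p2 q0 q1 r1 r2 f0 f1 h1 h2 h3 h4 h5 h6 h7 h8 h9 h10 h11 h12
      h13 h14 (k0.symm.trans s0) (k1.symm.trans s1) (k2.symm.trans s2) (k3.symm.trans s3)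
    obtain ⟨c3, c2, c1, c0⟩ := cst_val k a c a0 a1 a2 a3 (om3 ^ 2) om3 hu hu' v g3 g2 g1 g0 e3 e2
      e1 e0
    refine ⟨v, r, fun h => absurd h (by norm_num), ?_⟩
    intro i hi
    interval_cases i
    · rw [c0]; exact t0
    · rw [c1]; exact t1
    · rw [c2]; exact t2
    · rw [c3]
      have : v0 2 3 = 0 := rfl
      rw [this, smul_zero, add_zero]; exact t3

end Pool.Agent.H56.SG
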